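import Pool.Agent.U8.MSW.Main

/-! The reduction of the monoid Stark conjecture, with the units as powers in the larger field. -/

namespace Pool.Agent.U8.MSP

open Pool.Agent.W206.MS

section main

variable {K : Type*} [Field K] [CharZero K] [Algebra K ℝ]

/-- The conditions (i), (ii), (iii) for the family `ε` in the ray class field `H`. -/
def Units (σ : K →+* ℝ) (O : Subalgebra ℤ K) (m : Submodule ℤ K) (H : IntermediateField K ℝ)
    (Art : Submodule ℤ K → (H ≃ₐ[K] H)) (ε : Submodule ℤ K → H) : Prop :=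
  IsRayClassField σ O m H Art ∧ ∀ a, InMonoid O m a →
      (∀ b, InMonoid O m b → Rel O m σ b a → ε b = ε a) ∧
      (IsIntegral ℤ (ε a : ℝ) ∧ IsIntegral ℤ (ε a : ℝ)⁻¹) ∧
      CondI σ O m a (ε a) ∧ CondII O m H Art ε a ∧ CondIII σ H (ε a)

theorem reduction_pow (σ : K →+* ℝ) {O O' : Subalgebra ℤ K} {m : Submodule ℤ K}
    (P : Pair O O' m (m / OL O')) (H' : IntermediateField K ℝ)
    (Art' : Submodule ℤ K → (H' ≃ₐ[K] H')) (ε' : Submodule ℤ K → H')
    (h : Units σ O' (m / OL O') H' Art' ε') :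
    ∃ (H : IntermediateField K ℝ) (Art : Submodule ℤ K → (H ≃ₐ[K] H)) (ε : Submodule ℤ K → H),
      H ≤ H' ∧ Units σ O m H Art ε ∧ ∀ a, InMonoid O m a → ∀ n : ℕ,
        (∀ I, IsInv O' I → I ≤ OL O' → n ∣ nn O O' m σ I a) →
        ∃ η : H', IsIntegral ℤ (η : ℝ) ∧ IsIntegral ℤ (η : ℝ)⁻¹ ∧ (η : ℝ) ^ n = ε a := by
  classical
  have hO' : O' ≤ integralClosure ℤ K := mem_maxOrder_of_fg P.fg'
  obtain ⟨⟨⟨hfd, hab⟩, ⟨hmul, hsurj, hker⟩, hfrob⟩, hε'⟩ := h
  have hA : Chr O' (m / OL O') σ Art' := ⟨hmul, hsurj, hker⟩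
  have hfinG : Finite (H' ≃ₐ[K] H') := inferInstance
  have hfinQ : Finite (QQ P.mB σ) := P.finite_classes Art' hmul fun x hx h => (hker x hx).1 h
  have : Fintype (QQ P.mB σ) := Fintype.ofFinite _
  obtain ⟨H, hle, res, hHfd, hHab, hres, hresker, hresval, hfix⟩ := exists_res H' (gam P hA)
  have hmon' : ∀ I, IsInv O' I → I ≤ OL O' → InMonoid O' (m / OL O') I := fun I h1 h2 =>
    inMonoid_of_le P.mB h1 h2
  have hcongr : ∀ I J, IsInv O' I → I ≤ OL O' → IsInv O' J → J ≤ OL O' →
      REq O' (m / OL O') σ I J → ε' I = ε' J := by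
    intro I J hI hI' hJ hJ' hIJ
    have h1 := (hε' J (hmon' J hJ hJ')).1
    exact h1 I (hmon' I hI hI') ((rel_iff P.mB P.fin' (hmon' J hJ hJ')).2 hIJ)
  set E : Submodule ℤ K → H' := fun a => EE (σ := σ) P ε' a with hE
  have hEc : ∀ a c, REq O m σ a c → E a = E c := fun a c hac => EE_congr P ε' hac
  -- action of the good ideals
  have hact : ∀ g a, Good O (m / OL O') g → OL O * a = a → Art' (OL O' * g) (E a) = E (g * a) := by
    intro g a hg ha
    have h1 := EE_mul (σ := σ) P ε' hcongr ha hg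
    rw [hE]
    simp only
    rw [← h1]
    unfold EE
    rw [map_prod]
    refine Finset.prod_congr rfl fun q _ => ?_
    rw [map_pow]
    congr 1
    exact (hε' _ (hmon' _ (rep_inv q) (rep_le q))).2.2.2.1 _ ((P.good_ext hg).inJ P.mB)
  have hsm : ∀ a (α : K), InMonoid O m a → α - 1 ∈ Loc O m m → 0 < σ α → E (sm α a) = E a :=
    fun a α ha h1 h2 => hEc _ _ (REq.sm_left P.mM h1 h2 ha.2)
  have hEH : ∀ a, InMonoid O m a → ((E a : H') : ℝ) ∈ H := by
    intro a ha
    apply hfix
    rintro τ ⟨α, h1, h2, h3, rfl⟩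
    rw [hact _ a h1 ha.1.stable, sm_mul, ha.1.stable, hsm a α ha h2 h3]
  set ε : Submodule ℤ K → H := fun a => if h : ((E a : H') : ℝ) ∈ H then ⟨(E a : ℝ), h⟩ else 1
    with hε
  have hεv : ∀ a, InMonoid O m a → ((ε a : H) : ℝ) = ((E a : H') : ℝ) := by
    intro a ha
    simp only [hε]
    rw [dif_pos (hEH a ha)]
  have hεE : ∀ a, InMonoid O m a → (⟨((ε a : H) : ℝ), hle (ε a).2⟩ : H') = E a := by
    intro a ha
    exact Subtype.ext (hεv a ha)
  have hpos : ∀ q : QQ P.mB σ, 0 < ((ε' (rep q) : H') : ℝ) := by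
    intro q
    obtain ⟨F, hF, hFe⟩ := (hε' _ (hmon' _ (rep_inv q) (rep_le q))).2.2.1
    have h1 := hF.deriv_real
    have h2 : deriv F 0 = ((deriv F 0).re : ℂ) := by
      apply Complex.ext <;> simp [h1]
    rw [h2, ← Complex.ofReal_neg, ← Complex.ofReal_exp] at hFe
    rw [Complex.ofReal_injective hFe]
    exact Real.exp_pos _
  have hEval : ∀ a, ((E a : H') : ℝ) =
      ∏ q : QQ P.mB σ, ((ε' (rep q) : H') : ℝ) ^ nn O O' m σ (rep q) a := by
    intro a
    simp only [hE, EE]
    push_cast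
    rfl
  refine ⟨H, fun a => res (Art' (OL O' * rr O m (m / OL O') σ a)), ε, hle,
    ⟨⟨⟨hHfd, hHab⟩, ⟨?_, ?_, ?_⟩, ?_⟩, ?_⟩, ?_⟩
  · intro x y hx hy
    rw [← map_mul, ← mul_inv_eq_one, ← map_inv, ← map_mul, hresker]
    exact hA.art_mul P hx hy
  · intro g
    obtain ⟨τ, rfl⟩ := hres g
    obtain ⟨x, hx, hx'⟩ := hA.art_surj P τ
    exact ⟨x, hx, by simp only [hx']⟩
  · intro x hx
    rw [hresker]
    exact hA.art_ker P hx
  · intro I hI hcop x hx
    have hdiv : (m / OL O') / OL (integralClosure ℤ K) = m / OL (integralClosure ℤ K) := by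
      ext z
      simp only [Submodule.mem_div_iff_forall_mul_mem]
      constructor
      · intro h1 y hy
        have := h1 y hy 1 (one_mem_OL O')
        simpa using this
      · intro h1 y hy w hw
        rw [mul_assoc]
        exact h1 _ ((integralClosure ℤ K).mul_mem hy (hO' hw))
    have hfx := hfrob I hI (by rw [hdiv]; exact hcop) ⟨(x : ℝ), hle x.2⟩ hx
    refine Eq.mp ?_ hfx
    congr 2
    -- the contraction of `I` to `O` is prime to `b`
    have h1 : ∃ e ∈ contr I O, 1 - e ∈ m / OL O' := by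
      have h2 : (1 : K) ∈ contr I (integralClosure ℤ K) ⊔ m / OL (integralClosure ℤ K) := by
        rw [hcop]; exact one_mem_OL _
      obtain ⟨e, he, z, hz, hez⟩ := Submodule.mem_sup.1 h2
      have hzb : z ∈ m / OL O' := by
        rw [Submodule.mem_div_iff_forall_mul_mem] at hz ⊢
        exact fun y hy => hz y (hO' hy)
      have h3 : 1 - e = z := by rw [← hez]; ring
      refine ⟨e, (mem_contr hI).2 ⟨?_, ((mem_contr hI).1 he).2⟩, by rw [h3]; exact hzb⟩
      exact P.one_sub (by rw [h3]; exact hzb)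
    obtain ⟨e, he, he'⟩ := h1
    have h4 : rr O m (m / OL O') σ (contr I O) = contr I O :=
      rr_of_le (fun x hx => ((mem_contr hI).1 hx).1) he he'
    simp only [h4, contr_ext P hI hO' he he']
    exact (hresval _ x).symm
  · intro a ha
    have hEa := hεv a ha
    refine ⟨?_, ⟨?_, ?_⟩, ?_, ?_, ?_⟩
    · intro c hc hca
      have h1 : E c = E a := hEc _ _ ((rel_iff P.mM P.fin_m ha).1 hca)
      apply Subtype.ext
      rw [hεv c hc, hEa, h1]
    · rw [hEa, hEval a]
      refine IsIntegral.prod _ fun q _ => IsIntegral.pow ?_ _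
      exact (hε' _ (hmon' _ (rep_inv q) (rep_le q))).2.1.1
    · rw [hEa, hEval a, ← Finset.prod_inv_distrib]
      refine IsIntegral.prod _ fun q _ => ?_
      rw [← inv_pow]
      exact IsIntegral.pow (hε' _ (hmon' _ (rep_inv q) (rep_le q))).2.1.2 _
    · have hF : ∀ q : QQ P.mB σ, ∃ F, IsZ O' (m / OL O') σ (rep q) F ∧
          ((ε' (rep q) : ℝ) : ℂ) = Complex.exp (- deriv F 0) := fun q =>
        (hε' _ (hmon' _ (rep_inv q) (rep_le q))).2.2.1
      choose F hF1 hF2 using hF
      refine ⟨_, P.isZ ha F hF1, ?_⟩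
      have hd : ∀ q, DifferentiableAt ℂ (F q) 0 := fun q =>
        (hF1 q).2.differentiableAt (isOpen_compl_singleton.mem_nhds (by norm_num))
      have h1 : deriv (fun s => ∑ q, (nn O O' m σ (rep q) a : ℂ) * F q s) 0 =
          ∑ q, (nn O O' m σ (rep q) a : ℂ) * deriv (F q) 0 := by
        rw [deriv_fun_sum fun q _ => (hd q).const_mul _]
        exact Finset.sum_congr rfl fun q _ => deriv_const_mul _ (hd q)
      rw [h1, ← Finset.sum_neg_distrib, Complex.exp_sum, hEa, hEval a]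
      push_cast
      refine Finset.prod_congr rfl fun q _ => ?_
      rw [hF2 q, ← Complex.exp_nat_mul]
      congr 1
      ring
    · intro c hc
      obtain ⟨α, a1, a2, a3, a4⟩ := P.rr_spec (σ := σ) hc
      have hca : InMonoid O m (c * a) := (hc.inMonoid P.mM).mul P.mM ha
      apply Subtype.ext
      rw [hresval, hεE a ha, a4, hact _ a a3 ha.1.stable, sm_mul, hsm _ α hca a1 a2, hεv _ hca]
    · intro τ hτ
      obtain ⟨τ', h1⟩ := extend_hom (IntermediateField.inclusion hle) τ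
      have h2 : ∀ x : K, τ' (algebraMap K H' x) = ((σ x : ℝ) : ℂ) := by
        intro x
        rw [← hτ x]
        exact h1 (algebraMap K H x)
      have h3 : τ (ε a) = τ' (E a) := by
        rw [← h1, ← hεE a ha]
        rfl
      rw [h3]
      simp only [hE, EE]
      rw [map_prod, norm_prod]
      refine Finset.prod_eq_one fun q _ => ?_
      rw [map_pow, norm_pow]
      have h4 := (hε' _ (hmon' _ (rep_inv q) (rep_le q))).2.2.2.2 τ' h2
      rw [h4, one_pow]
  · intro a ha n hn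
    have hn' : ∀ q : QQ P.mB σ, ∃ k, nn O O' m σ (rep q) a = n * k := fun q =>
      hn _ (rep_inv q) (rep_le q)
    choose k hk using hn'
    refine ⟨∏ q : QQ P.mB σ, ε' (rep q) ^ k q, ?_, ?_, ?_⟩
    · push_cast
      refine IsIntegral.prod _ fun q _ => IsIntegral.pow ?_ _
      exact (hε' _ (hmon' _ (rep_inv q) (rep_le q))).2.1.1
    · push_cast
      rw [← Finset.prod_inv_distrib]
      refine IsIntegral.prod _ fun q _ => ?_
      rw [← inv_pow]
      exact IsIntegral.pow (hε' _ (hmon' _ (rep_inv q) (rep_le q))).2.1.2 _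
    · push_cast
      rw [hεv a ha, hEval a, ← Finset.prod_pow]
      refine Finset.prod_congr rfl fun q _ => ?_
      rw [← pow_mul, hk q, mul_comm]

omit [Algebra K ℝ] in
/-- A unit `u` of `O'`, not in `O` but with `u ^ 2` in `O`, which acts on the ideals of the class,
makes the multiplicities even. -/
theorem prime_dvd_nn {σ : K →+* ℝ} {O O' : Subalgebra ℤ K} {m b : Submodule ℤ K}
    (P : Pair O O' m b) {a I : Submodule ℤ K} (hI : IsInv O' I)
    {u : K} (hu : u ∈ O') (hu' : u⁻¹ ∈ O') (hσ : 0 < σ u) (hn : u ∉ O) {p : ℕ}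
    (hp : p.Prime) (h2 : u ^ p ∈ O) (h2' : (u ^ p)⁻¹ ∈ O)
    (hact : ∀ x, IsInv O x → x ≤ OL O → REq O m σ x a → ∀ z ∈ x, (u - 1) * z ∈ b) :
    p ∣ nn O O' m σ I a := by
  classical
  have h0 : u ≠ 0 := ne_zero_of_pos hσ
  have hfin := P.XS_finite (σ := σ) (a := a) hI
  by_cases hemp : XS O O' m σ I a = ∅
  · unfold nn; rw [hemp]; simp
  have hIO : I ≤ OL O' := by
    obtain ⟨x, hx⟩ := Set.nonempty_iff_ne_empty.2 hemp
    rw [← hx.2.2.2, Submodule.mul_le]
    exact fun y hy z hz => O'.mul_mem hy (P.le (hx.2.1 hz))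
  have hstab : I = sm u I := by
    apply le_antisymm
    · intro z hz
      have : z = u * (u⁻¹ * z) := by field_simp
      rw [this]
      exact mul_mem_sm (hI.smul_mem hu' hz)
    · rw [sm_le_iff]
      exact fun z hz => hI.smul_mem hu hz
  have hb : ∀ z ∈ I, ∀ x, x ∈ XS O O' m σ I a → (u - 1) * z ∈ b := by
    intro z hz x hx
    rw [← hx.2.2.2] at hz
    induction hz using Submodule.mul_induction_on' with
    | mem_mul_mem w hw y hy =>
      have : (u - 1) * (w * y) = w * ((u - 1) * y) := by ring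
      rw [this]
      exact P.mB.mul w hw _ (hact x hx.1 hx.2.1 hx.2.2.1 y hy)
    | add p _ q _ ihp ihq => rw [mul_add]; exact b.add_mem ihp ihq
  have hmaps : ∀ x ∈ XS O O' m σ I a, sm u x ∈ XS O O' m σ I a := fun x hx =>
    P.XS_map hσ (fun z hz => loc_of_mem P.mB (hb z hz x hx)) hstab hIO hx
  have hpow : ∀ k : ℕ, ∀ x ∈ XS O O' m σ I a, sm (u ^ k) x ∈ XS O O' m σ I a := by
    intro k
    induction k with
    | zero => intro x hx; rw [pow_zero, one_sm]; exact hx
    | succ k ih => intro x hx; rw [pow_succ', ← sm_sm]; exact hmaps _ (ih x hx)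
  have hsq : ∀ x ∈ XS O O' m σ I a, sm (u ^ p) x = x := by
    intro x hx
    apply le_antisymm
    · rw [sm_le_iff]
      exact fun z hz => hx.1.smul_mem h2 hz
    · intro z hz
      have : z = u ^ p * ((u ^ p)⁻¹ * z) := by field_simp
      rw [this]
      exact mul_mem_sm (hx.1.smul_mem h2' hz)
  have hne : ∀ x ∈ XS O O' m σ I a, sm u x ≠ x := by
    intro x hx h
    apply hn
    obtain ⟨hst, y, hy, hxy⟩ := hx.1
    have h1 : sm u (OL O) = OL O := by
      rw [← hxy, ← sm_mul, h]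
    have h3 : u * 1 ∈ sm u (OL O) := mul_mem_sm (one_mem_OL O)
    rw [h1, mul_one] at h3
    exact h3
  have hfin' : Finite (XS O O' m σ I a) := hfin
  have : Fintype (XS O O' m σ I a) := Fintype.ofFinite _
  have hpf : Fact p.Prime := ⟨hp⟩
  let f : Function.End (XS O O' m σ I a) := fun x => ⟨sm u x.1, hmaps x.1 x.2⟩
  have hf : ∀ (k : ℕ) (x : XS O O' m σ I a), ((f ^ k) x : XS O O' m σ I a).1 = sm (u ^ k) x.1 := by
    intro k
    induction k with
    | zero => intro x; rw [pow_zero, pow_zero, one_sm]; rfl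
    | succ k ih =>
      intro x
      rw [pow_succ', pow_succ', ← sm_sm, ← ih x]
      rfl
  have hf1 : f ^ p ^ 1 = 1 := by
    funext x
    apply Subtype.ext
    rw [pow_one, hf p x, hsq x.1 x.2]
    rfl
  have key := Equiv.Perm.card_fixedPoints_modEq (p := p) (n := 1) hf1
  have h0' : Fintype.card (Function.fixedPoints f) = 0 := by
    rw [Fintype.card_eq_zero_iff]
    refine ⟨fun x => ?_⟩
    exact hne x.1.1 x.1.2 (congrArg Subtype.val x.2)
  rw [h0'] at key
  unfold nn
  rw [← Nat.card_coe_set_eq, Nat.card_eq_fintype_card]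
  exact (Nat.modEq_zero_iff_dvd).1 key

end main

end Pool.Agent.U8.MSP
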